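import Pool.Agent.MP_66cee2_co.H35.Kit

/-!
A regular simplex with five vertices, each adjacent to an end of each of two orthogonal
diameters of the unit sphere of a space of dimension at least four.
-/

namespace Pool.Agent.MP_66cee2_co.H35

open Module Pool.Agent.MP_66cee2_co.H44
open scoped RealInnerProductSpace

variable {E : Type*} [NormedAddCommGroup E] [InnerProductSpace ℝ E] [FiniteDimensional ℝ E]

theorem gadget4 (h4 : 4 ≤ finrank ℝ E) : Gadget E 2 5 := by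
  intro u hu
  obtain ⟨e, he, h0, h1⟩ := exists_frame h4 (hu.1 0) (hu.1 1) (hu.2 (by decide))
  obtain ⟨r, hr⟩ : ∃ r : ℝ, r ^ 2 = 5 := ⟨√5, Real.sq_sqrt (by norm_num)⟩
  obtain ⟨s, hs⟩ : ∃ s : ℝ, s ^ 2 = 1 / 6 := ⟨√(1 / 6), Real.sq_sqrt (by norm_num)⟩
  let A : Fin 5 → ℝ := ![-1 / 2, 1 / 2, (r + 1) / 4, 0, (r - 1) / 4]
  let B : Fin 5 → ℝ := ![1 / 2, -1 / 2, (r + 1) / 4, 0, (r - 1) / 4]
  let C : Fin 5 → ℝ := ![3, 3, (3 + r) / 2, 1, (3 - r) / 2]
  let D : Fin 5 → ℝ := ![0, 0, 1, r, -1]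
  refine ⟨fun i => cmb e (A i) (B i) (C i * s) (D i * s), fun i k hik => ?_, fun i a => ?_⟩
  · rw [cmb_sub, normsq_cmb he, ← sub_mul, ← sub_mul, mul_pow, mul_pow, hs]
    fin_cases i <;> fin_cases k <;> first | exact absurd rfl hik | skip
    all_goals simp [A, B, C, D]
    all_goals nlinarith [hr]
  · have e0 : u 0 = cmb e 1 0 0 0 := by rw [cmb_zero, h0]
    have e1 : u 1 = cmb e 0 1 0 0 := by rw [cmb_one, h1]
    have key : ∀ x y : ℝ, (x = 1 ∧ y = 0 ∨ x = 0 ∧ y = 1) →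
        (A i - x) ^ 2 + (B i - y) ^ 2 + C i ^ 2 / 6 + D i ^ 2 / 6 = 2 ∨
        (A i + x) ^ 2 + (B i + y) ^ 2 + C i ^ 2 / 6 + D i ^ 2 / 6 = 2 := by
      rintro x y (⟨rfl, rfl⟩ | ⟨rfl, rfl⟩) <;> fin_cases i <;> simp only [A, B, C, D] <;>
        first
        | (left; simp; nlinarith [hr])
        | (right; simp; nlinarith [hr])
    have fin : ∀ x y : ℝ, (x = 1 ∧ y = 0 ∨ x = 0 ∧ y = 1) →
        ‖cmb e (A i) (B i) (C i * s) (D i * s) - cmb e x y 0 0‖ ^ 2 = 2 ∨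
        ‖cmb e (A i) (B i) (C i * s) (D i * s) + cmb e x y 0 0‖ ^ 2 = 2 := by
      intro x y h
      rw [cmb_sub, cmb_add, normsq_cmb he, normsq_cmb he]
      simp only [sub_zero, add_zero, mul_pow, hs]
      rcases key x y h with h | h
      · left; linarith
      · right; linarith
    fin_cases a
    · simpa [e0] using fin 1 0 (Or.inl ⟨rfl, rfl⟩)
    · simpa [e1] using fin 0 1 (Or.inr ⟨rfl, rfl⟩)

end Pool.Agent.MP_66cee2_co.H35
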