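import Pool.Agent.MP_66cee2_co.H35.Kit

/-!
The Kochen-Specker obstruction in the orthogonal complement of a unit vector.
-/

namespace Pool.Agent.MP_66cee2_co.H35

open Module Pool.Agent.MP_66cee2_co.H44
open scoped RealInnerProductSpace

theorem ks_int (P : ℤ → ℤ → ℤ → Prop)
    (h2 : ∀ {a b c a' b' c' : ℤ}, 0 < a ^ 2 + b ^ 2 + c ^ 2 ∧ 0 < a' ^ 2 + b' ^ 2 + c' ^ 2 ∧
      a * a' + b * b' + c * c' = 0 → P a b c → P a' b' c' → False)
    (h3 : ∀ a b c a' b' c' x y z : ℤ, 0 < a ^ 2 + b ^ 2 + c ^ 2 ∧ 0 < a' ^ 2 + b' ^ 2 + c' ^ 2 ∧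
      0 < x ^ 2 + y ^ 2 + z ^ 2 ∧ a * a' + b * b' + c * c' = 0 ∧ a * x + b * y + c * z = 0 ∧
      a' * x + b' * y + c' * z = 0 → P a b c ∨ P a' b' c' ∨ P x y z) : False := by
  rcases h3 0 0 1 0 1 0 1 0 0 (by decide) with x0 | x3 | x20
  · rcases h3 0 1 0 1 0 (-2) 2 0 1 (by decide) with x3 | x18 | x41
    · exact h2 (by decide) x3 x0
    · rcases h3 0 1 0 1 0 2 2 0 (-1) (by decide) with x3 | x22 | x40
      · exact h2 (by decide) x3 x0
      · rcases h3 0 1 0 1 0 (-1) 1 0 1 (by decide) with x3 | x19 | x21
        · exact h2 (by decide) x3 x0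
        · rcases h3 0 1 1 1 (-1) 1 2 1 (-1) (by decide) with x4 | x16 | x43
          · rcases h3 1 2 (-2) 2 (-2) (-1) 2 1 2 (by decide) with x28 | x33 | x46
            · exact h2 (by decide) x28 x4
            · exact h2 (by decide) x33 x22
            · exact h2 (by decide) x46 x19
          · exact h2 (by decide) x16 x19
          · exact h2 (by decide) x43 x22
        · rcases h3 1 2 2 2 (-2) 1 2 1 (-2) (by decide) with x32 | x34 | x42
          · rcases h3 0 1 (-1) 1 (-1) (-1) 2 1 1 (by decide) with x2 | x14 | x45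
            · exact h2 (by decide) x2 x32
            · exact h2 (by decide) x14 x21
            · exact h2 (by decide) x45 x18
          · exact h2 (by decide) x34 x18
          · exact h2 (by decide) x42 x21
      · rcases h3 1 (-1) (-1) 1 (-1) 2 1 1 0 (by decide) with x14 | x17 | x25
        · rcases h3 1 (-1) 0 1 1 (-1) 1 1 2 (by decide) with x15 | x24 | x27
          · exact h2 (by decide) x15 x0
          · rcases h3 0 1 (-1) 0 1 1 1 0 0 (by decide) with x2 | x4 | x20
            · exact h2 (by decide) x2 x14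
            · exact h2 (by decide) x4 x24
            · exact h2 (by decide) x20 x0
          · exact h2 (by decide) x27 x40
        · exact h2 (by decide) x17 x40
        · exact h2 (by decide) x25 x0
    · rcases h3 1 (-1) (-2) 1 (-1) 1 1 1 0 (by decide) with x13 | x16 | x25
      · exact h2 (by decide) x13 x41
      · rcases h3 0 1 (-1) 0 1 1 1 0 0 (by decide) with x2 | x4 | x20
        · rcases h3 1 (-1) 0 1 1 (-2) 1 1 1 (by decide) with x15 | x23 | x26
          · exact h2 (by decide) x15 x0
          · exact h2 (by decide) x23 x41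
          · exact h2 (by decide) x26 x2
        · exact h2 (by decide) x4 x16
        · exact h2 (by decide) x20 x0
      · exact h2 (by decide) x25 x0
  · rcases h3 0 1 2 0 2 (-1) 1 0 0 (by decide) with x5 | x6 | x20
    · rcases h3 1 (-2) 1 1 0 (-1) 1 1 1 (by decide) with x11 | x19 | x26
      · exact h2 (by decide) x11 x5
      · exact h2 (by decide) x19 x3
      · rcases h3 1 (-1) (-1) 1 0 1 1 2 (-1) (by decide) with x14 | x21 | x29
        · rcases h3 0 0 1 1 (-1) 0 1 1 0 (by decide) with x0 | x15 | x25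
          · exact h2 (by decide) x0 x3
          · exact h2 (by decide) x15 x26
          · exact h2 (by decide) x25 x14
        · exact h2 (by decide) x21 x3
        · exact h2 (by decide) x29 x5
    · rcases h3 0 1 (-1) 0 1 1 1 0 0 (by decide) with x2 | x4 | x20
      · rcases h3 1 (-2) 1 1 0 (-1) 1 1 1 (by decide) with x11 | x19 | x26
        · rcases h3 0 0 1 1 (-2) 0 2 1 0 (by decide) with x0 | x10 | x44
          · exact h2 (by decide) x0 x3
          · rcases h3 0 1 1 1 (-1) 1 2 1 (-1) (by decide) with x4 | x16 | x43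
            · exact h2 (by decide) x4 x2
            · rcases h3 1 (-1) (-1) 1 0 1 1 2 (-1) (by decide) with x14 | x21 | x29
              · exact h2 (by decide) x14 x2
              · exact h2 (by decide) x21 x3
              · rcases h3 0 0 1 1 2 0 2 (-1) 0 (by decide) with x0 | x30 | x37
                · exact h2 (by decide) x0 x3
                · rcases h3 1 (-2) (-2) 2 (-1) 2 2 2 (-1) (by decide) with x8 | x39 | x47
                  · exact h2 (by decide) x8 x2
                  · exact h2 (by decide) x39 x30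
                  · rcases h3 0 0 1 1 (-1) 0 1 1 0 (by decide) with x0 | x15 | x25
                    · exact h2 (by decide) x0 x3
                    · exact h2 (by decide) x15 x47
                    · exact h2 (by decide) x25 x16
                · exact h2 (by decide) x37 x29
            · exact h2 (by decide) x43 x10
          · exact h2 (by decide) x44 x11
        · exact h2 (by decide) x19 x3
        · exact h2 (by decide) x26 x2
      · rcases h3 1 (-1) (-2) 1 (-1) 1 1 1 0 (by decide) with x13 | x16 | x25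
        · exact h2 (by decide) x13 x6
        · exact h2 (by decide) x16 x4
        · rcases h3 1 2 (-2) 2 (-2) (-1) 2 1 2 (by decide) with x28 | x33 | x46
          · exact h2 (by decide) x28 x4
          · exact h2 (by decide) x33 x25
          · exact h2 (by decide) x46 x6
      · exact h2 (by decide) x20 x3
    · exact h2 (by decide) x20 x3
  · rcases h3 0 1 0 1 0 2 2 0 (-1) (by decide) with x3 | x22 | x40
    · exact h2 (by decide) x3 x20
    · rcases h3 0 1 1 1 (-1) 1 2 1 (-1) (by decide) with x4 | x16 | x43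
      · exact h2 (by decide) x4 x20
      · rcases h3 0 0 1 1 (-1) 0 1 1 0 (by decide) with x0 | x15 | x25
        · exact h2 (by decide) x0 x20
        · rcases h3 0 1 (-1) 1 1 1 2 (-1) (-1) (by decide) with x2 | x26 | x36
          · exact h2 (by decide) x2 x20
          · exact h2 (by decide) x26 x15
          · exact h2 (by decide) x36 x22
        · exact h2 (by decide) x25 x16
      · exact h2 (by decide) x43 x22
    · rcases h3 0 0 1 1 (-2) 0 2 1 0 (by decide) with x0 | x10 | x44
      · exact h2 (by decide) x0 x20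
      · rcases h3 0 1 1 1 (-1) 1 2 1 (-1) (by decide) with x4 | x16 | x43
        · exact h2 (by decide) x4 x20
        · rcases h3 0 1 0 1 0 (-1) 1 0 1 (by decide) with x3 | x19 | x21
          · exact h2 (by decide) x3 x20
          · exact h2 (by decide) x19 x16
          · rcases h3 1 (-1) (-1) 1 (-1) 2 1 1 0 (by decide) with x14 | x17 | x25
            · exact h2 (by decide) x14 x21
            · exact h2 (by decide) x17 x40
            · exact h2 (by decide) x25 x16
        · exact h2 (by decide) x43 x10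
      · rcases h3 1 (-1) 0 1 1 (-1) 1 1 2 (by decide) with x15 | x24 | x27
        · rcases h3 1 (-1) (-1) 1 (-1) 2 1 1 0 (by decide) with x14 | x17 | x25
          · rcases h3 1 (-2) (-1) 1 0 1 1 1 (-1) (by decide) with x9 | x21 | x24
            · exact h2 (by decide) x9 x44
            · exact h2 (by decide) x21 x14
            · exact h2 (by decide) x24 x15
          · exact h2 (by decide) x17 x40
          · exact h2 (by decide) x25 x15
        · rcases h3 0 0 1 1 (-1) 0 1 1 0 (by decide) with x0 | x15 | x25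
          · exact h2 (by decide) x0 x20
          · exact h2 (by decide) x15 x24
          · rcases h3 0 1 (-1) 1 (-1) (-1) 2 1 1 (by decide) with x2 | x14 | x45
            · exact h2 (by decide) x2 x20
            · exact h2 (by decide) x14 x25
            · rcases h3 0 1 0 1 0 (-1) 1 0 1 (by decide) with x3 | x19 | x21
              · exact h2 (by decide) x3 x20
              · rcases h3 1 2 (-2) 2 (-2) (-1) 2 1 2 (by decide) with x28 | x33 | x46
                · rcases h3 0 1 0 1 0 (-2) 2 0 1 (by decide) with x3 | x18 | x41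
                  · exact h2 (by decide) x3 x20
                  · exact h2 (by decide) x18 x45
                  · exact h2 (by decide) x41 x28
                · exact h2 (by decide) x33 x25
                · exact h2 (by decide) x46 x19
              · exact h2 (by decide) x21 x24
        · exact h2 (by decide) x27 x40

variable {E : Type*} [NormedAddCommGroup E] [InnerProductSpace ℝ E] [FiniteDimensional ℝ E]

theorem ks (h4 : 4 ≤ finrank ℝ E) {u : E} (hu : ‖u‖ = 1) (P : E → Prop)
    (h2 : ∀ v w, ‖v‖ = 1 → ‖w‖ = 1 → ⟪v, u⟫ = 0 → ⟪w, u⟫ = 0 → ⟪v, w⟫ = 0 → P v → P w → False)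
    (h3 : ∀ v w z, ‖v‖ = 1 → ‖w‖ = 1 → ‖z‖ = 1 → ⟪v, u⟫ = 0 → ⟪w, u⟫ = 0 → ⟪z, u⟫ = 0 →
      ⟪v, w⟫ = 0 → ⟪v, z⟫ = 0 → ⟪w, z⟫ = 0 → P v ∨ P w ∨ P z) : False := by
  obtain ⟨e, -, -, he, h0, -⟩ := exists_frame' h4 (v := u) hu
  have hn : ∀ a b c : ℤ, 0 < a ^ 2 + b ^ 2 + c ^ 2 → ‖nrm (cmb e 0 a b c)‖ = 1 := by
    intro a b c h
    refine norm_nrm ?_
    rw [normsq_cmb he]
    have : (0 : ℝ) < (a : ℝ) ^ 2 + (b : ℝ) ^ 2 + (c : ℝ) ^ 2 := by exact_mod_cast h
    linarith
  have hu' : ∀ a b c : ℤ, ⟪nrm (cmb e 0 a b c), u⟫ = 0 := by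
    intro a b c
    have e0 : u = nrm (cmb e 1 0 0 0) := by rw [cmb_zero, h0, nrm_unit hu]
    rw [e0]
    exact inner_nrm (by rw [inner_cmb he]; ring)
  have ho : ∀ a b c a' b' c' : ℤ, a * a' + b * b' + c * c' = 0 →
      ⟪nrm (cmb e 0 a b c), nrm (cmb e 0 a' b' c')⟫ = 0 := by
    intro a b c a' b' c' h
    refine inner_nrm ?_
    rw [inner_cmb he]
    have : (a : ℝ) * a' + b * b' + c * c' = 0 := by exact_mod_cast h
    linarith
  refine ks_int (fun a b c => P (nrm (cmb e 0 a b c))) ?_ ?_
  · rintro a b c a' b' c' ⟨p, q, r⟩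
    exact h2 _ _ (hn _ _ _ p) (hn _ _ _ q) (hu' _ _ _) (hu' _ _ _) (ho _ _ _ _ _ _ r)
  · rintro a b c a' b' c' x y z ⟨p, q, r, s, t, w⟩
    exact h3 _ _ _ (hn _ _ _ p) (hn _ _ _ q) (hn _ _ _ r) (hu' _ _ _) (hu' _ _ _) (hu' _ _ _)
      (ho _ _ _ _ _ _ s) (ho _ _ _ _ _ _ t) (ho _ _ _ _ _ _ w)

end Pool.Agent.MP_66cee2_co.H35
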