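import Pool.Agent.MP_66cee2_co.H44.Gadget

/-!
Coordinates in an orthonormal frame of four vectors.
-/

namespace Pool.Agent.MP_66cee2_co.H35

open Module Pool.Agent.MP_66cee2_co.H44
open scoped RealInnerProductSpace

variable {E : Type*} [NormedAddCommGroup E] [InnerProductSpace ℝ E]

/-- The vector with given coordinates in a frame. -/
noncomputable def cmb (e : Fin 4 → E) (a b c d : ℝ) : E := a • e 0 + b • e 1 + c • e 2 + d • e 3

theorem inner_cmb {e : Fin 4 → E} (he : Orthonormal ℝ e) (a b c d a' b' c' d' : ℝ) :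
    ⟪cmb e a b c d, cmb e a' b' c' d'⟫ = a * a' + b * b' + c * c' + d * d' := by
  have h := orthonormal_iff_ite.1 he
  simp only [cmb, inner_add_left, inner_add_right, inner_smul_left, inner_smul_right, h,
    conj_trivial]
  simp
  ring

theorem normsq_cmb {e : Fin 4 → E} (he : Orthonormal ℝ e) (a b c d : ℝ) :
    ‖cmb e a b c d‖ ^ 2 = a ^ 2 + b ^ 2 + c ^ 2 + d ^ 2 := by
  rw [← real_inner_self_eq_norm_sq, inner_cmb he]; ring

theorem cmb_sub (e : Fin 4 → E) (a b c d a' b' c' d' : ℝ) :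
    cmb e a b c d - cmb e a' b' c' d' = cmb e (a - a') (b - b') (c - c') (d - d') := by
  simp only [cmb]; module

theorem cmb_add (e : Fin 4 → E) (a b c d a' b' c' d' : ℝ) :
    cmb e a b c d + cmb e a' b' c' d' = cmb e (a + a') (b + b') (c + c') (d + d') := by
  simp only [cmb]; module

theorem cmb_zero (e : Fin 4 → E) : cmb e 1 0 0 0 = e 0 := by simp [cmb]

theorem cmb_one (e : Fin 4 → E) : cmb e 0 1 0 0 = e 1 := by simp [cmb]

/-- The unit vector in the direction of `x`. -/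
noncomputable def nrm (x : E) : E := ‖x‖⁻¹ • x

theorem norm_nrm {x : E} (hx : 0 < ‖x‖ ^ 2) : ‖nrm x‖ = 1 := by
  have : ‖x‖ ≠ 0 := fun h => by simp [h] at hx
  rw [nrm, norm_smul, norm_inv, norm_norm, inv_mul_cancel₀ this]

theorem inner_nrm {x y : E} (h : ⟪x, y⟫ = 0) : ⟪nrm x, nrm y⟫ = 0 := by
  simp [nrm, inner_smul_left, inner_smul_right, h]

theorem nrm_unit {x : E} (hx : ‖x‖ = 1) : nrm x = x := by simp [nrm, hx]

variable [FiniteDimensional ℝ E]

theorem exists_frame (h4 : 4 ≤ finrank ℝ E) {x y : E} (hx : ‖x‖ = 1) (hy : ‖y‖ = 1)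
    (hxy : ⟪x, y⟫ = 0) : ∃ e : Fin 4 → E, Orthonormal ℝ e ∧ e 0 = x ∧ e 1 = y := by
  obtain ⟨v, hv, hv'⟩ := exists_orth_two x y 2 (by omega)
  have h := orthonormal_iff_ite.1 hv
  have hxx : ⟪x, x⟫ = 1 := by rw [real_inner_self_eq_norm_sq, hx]; norm_num
  have hyy : ⟪y, y⟫ = 1 := by rw [real_inner_self_eq_norm_sq, hy]; norm_num
  have hyx : ⟪y, x⟫ = 0 := by rw [real_inner_comm, hxy]
  have a0 := (hv' 0).1
  have a1 := (hv' 1).1
  have b0 := (hv' 0).2
  have b1 := (hv' 1).2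
  have a0' : ⟪x, v 0⟫ = 0 := by rw [real_inner_comm, a0]
  have a1' : ⟪x, v 1⟫ = 0 := by rw [real_inner_comm, a1]
  have b0' : ⟪y, v 0⟫ = 0 := by rw [real_inner_comm, b0]
  have b1' : ⟪y, v 1⟫ = 0 := by rw [real_inner_comm, b1]
  have c00 : ⟪v 0, v 0⟫ = 1 := by rw [h]; simp
  have c11 : ⟪v 1, v 1⟫ = 1 := by rw [h]; simp
  have c01 : ⟪v 0, v 1⟫ = 0 := by rw [h]; simp
  have c10 : ⟪v 1, v 0⟫ = 0 := by rw [h]; simp
  refine ⟨![x, y, v 0, v 1], orthonormal_iff_ite.2 fun i j => ?_, rfl, rfl⟩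
  fin_cases i <;> fin_cases j <;> first | exact hxx | exact hyy | exact c00 | exact c11 | simpa

/-- Two unit vectors lie in the plane of the first two vectors of a frame. -/
theorem exists_frame' (h4 : 4 ≤ finrank ℝ E) {u v : E} (hu : ‖u‖ = 1) :
    ∃ (e : Fin 4 → E) (x y : ℝ), Orthonormal ℝ e ∧ e 0 = u ∧ v = cmb e x y 0 0 := by
  have huu : ⟪u, u⟫ = 1 := by rw [real_inner_self_eq_norm_sq, hu]; norm_num
  by_cases h : v - ⟪u, v⟫ • u = 0
  · obtain ⟨w, hw, hw'⟩ := exists_orth_two u u 1 (by omega)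
    obtain ⟨e, he, h0, -⟩ := exists_frame h4 hu (hw.1 0)
      (by rw [real_inner_comm]; exact (hw' 0).1)
    refine ⟨e, ⟪u, v⟫, 0, he, h0, ?_⟩
    simp only [cmb, h0, zero_smul, add_zero]
    exact sub_eq_zero.1 h
  · have hn : ‖v - ⟪u, v⟫ • u‖ ≠ 0 := norm_ne_zero_iff.2 h
    have ho : ⟪u, v - ⟪u, v⟫ • u⟫ = 0 := by
      rw [inner_sub_right, inner_smul_right, huu]; ring
    obtain ⟨e, he, h0, h1⟩ := exists_frame h4 hu (norm_nrm (x := v - ⟪u, v⟫ • u) (by positivity))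
      (by rw [← nrm_unit hu]; exact inner_nrm (by rw [nrm_unit hu]; exact ho))
    refine ⟨e, ⟪u, v⟫, ‖v - ⟪u, v⟫ • u‖, he, h0, ?_⟩
    simp only [cmb, h0, h1, nrm, zero_smul, add_zero, smul_smul, mul_inv_cancel₀ hn, one_smul]
    abel

end Pool.Agent.MP_66cee2_co.H35
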