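import Pool.Agent.MP_66cee2_co.H35.Kit

/-!
All full lines at one centre have the same label, from the pattern rules alone.
-/

namespace Pool.Agent.MP_66cee2_co.H35

open Module Pool.Agent.MP_66cee2_co.H44
open scoped RealInnerProductSpace

/-- Vectors with four coordinates. -/
structure V4 where
  a : ℝ
  b : ℝ
  c : ℝ
  d : ℝ

/-- The vector is not zero. -/
def V4.Pos (v : V4) : Prop := 0 < v.a ^ 2 + v.b ^ 2 + v.c ^ 2 + v.d ^ 2

/-- The vectors are orthogonal. -/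
def V4.Ort (v w : V4) : Prop := v.a * w.a + v.b * w.b + v.c * w.c + v.d * w.d = 0

theorem nu_core {T : Type*} (F C M : V4 → Prop) (ν : V4 → T)
    (tri : ∀ v, v.Pos → F v ∨ C v ∨ M v)
    (cc : ∀ v w, v.Pos → w.Pos → v.Ort w → C v → C w → False)
    (mm : ∀ v w, v.Pos → w.Pos → v.Ort w → M v → M w → False)
    (ff : ∀ v w, v.Pos → w.Pos → v.Ort w → F v → F w → ν v = ν w)
    (x y : ℝ) (hxy : 0 < x ^ 2 + y ^ 2) (f1 : F ⟨1, 0, 0, 0⟩) (f2 : F ⟨x, y, 0, 0⟩) :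
    ν ⟨1, 0, 0, 0⟩ = ν ⟨x, y, 0, 0⟩ := by
  by_contra hne
  have opp : ∀ v w, v.Pos → w.Pos → v.Ort w → ¬F v → ¬F w → (C v ↔ ¬C w) := by
    intro v w hv hw h nv nw
    refine ⟨fun a b => cc v w hv hw h a b, fun a => ?_⟩
    rcases tri v hv with b | b | b
    · exact absurd b nv
    · exact b
    · rcases tri w hw with c | c | c
      · exact absurd c nw
      · exact absurd c a
      · exact (mm v w hv hw h b c).elim
  have third : ∀ v w z, v.Pos → w.Pos → z.Pos → v.Ort w → v.Ort z → w.Ort z → ¬F v → ¬F w →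
      F z := by
    intro v w z hv hw hz a b c nv nw
    by_contra nz
    have h1 := opp v w hv hw a nv nw
    have h2 := opp v z hv hz b nv nz
    have h3 := opp w z hw hz c nw nz
    tauto
  have p1 : V4.Pos ⟨1, 0, 0, 0⟩ := by simp [V4.Pos]
  have p2 : V4.Pos ⟨x, y, 0, 0⟩ := by simpa [V4.Pos] using hxy
  have pc : ∀ c d : ℝ, 0 < c ^ 2 + d ^ 2 → V4.Pos ⟨0, 0, c, d⟩ := fun c d h => by
    simpa [V4.Pos] using h
  have pa : ∀ a b c d : ℝ, 0 < a ^ 2 + b ^ 2 → V4.Pos ⟨a, b, c, d⟩ := fun a b c d h => by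
    simp only [V4.Pos]; positivity
  have nF : ∀ c d : ℝ, 0 < c ^ 2 + d ^ 2 → ¬F ⟨0, 0, c, d⟩ := fun c d h f =>
    hne ((ff _ _ p1 (pc c d h) (by simp [V4.Ort]) f1 f).trans
      (ff _ _ (pc c d h) p2 (by simp [V4.Ort]) f f2))
  have aF : ∀ a b : ℝ, 0 < a ^ 2 + b ^ 2 → F ⟨a, b, 0, 0⟩ := fun a b h =>
    third ⟨0, 0, 1, 0⟩ ⟨0, 0, 0, 1⟩ _ (pc 1 0 (by norm_num)) (pc 0 1 (by norm_num)) (pa a b 0 0 h)
      (by simp [V4.Ort]) (by simp [V4.Ort]) (by simp [V4.Ort]) (nF 1 0 (by norm_num))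
      (nF 0 1 (by norm_num))
  have lab : ∀ a b c d : ℝ, 0 < a ^ 2 + b ^ 2 → F ⟨a, b, c, d⟩ →
      ν ⟨a, b, c, d⟩ = ν ⟨a, b, 0, 0⟩ := by
    intro a b c d h f
    have h' : 0 < (-b) ^ 2 + a ^ 2 := by linarith [neg_sq b]
    exact (ff _ _ (pa a b c d h) (pa (-b) a 0 0 h') (by simp only [V4.Ort]; ring) f
      (aF _ _ h')).trans (ff _ _ (pa (-b) a 0 0 h') (pa a b 0 0 h) (by simp only [V4.Ort]; ring)
      (aF _ _ h') (aF _ _ h))
  let W : ℝ → ℝ → ℝ → ℝ → V4 := fun r s a b => ⟨a, b, r * a - s * b, s * a + r * b⟩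
  have pW : ∀ r s a b, 0 < a ^ 2 + b ^ 2 → (W r s a b).Pos := fun r s a b h => pa _ _ _ _ h
  have oW : ∀ r s a b a' b', r ^ 2 + s ^ 2 = 1 → (W r s a b).Ort (W (-r) (-s) a' b') := by
    intro r s a b a' b' h
    simp only [V4.Ort, W]
    linear_combination (-(a * a' + b * b')) * h
  have oW' : ∀ r s a b, (W r s a b).Ort (W r s (-b) a) := by
    intro r s a b
    simp only [V4.Ort, W]
    ring
  have half : ∀ r s, r ^ 2 + s ^ 2 = 1 → ∀ p q, 0 < p ^ 2 + q ^ 2 → ¬F (W r s p q) →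
      ¬F (W r s (-q) p) → ∀ a b, 0 < a ^ 2 + b ^ 2 → ¬F (W r s a b) := by
    intro r s h p q hpq n1 n2 a b hab f
    have h' : 0 < (-q) ^ 2 + p ^ 2 := by linarith [neg_sq q]
    have g : ∀ a' b', 0 < a' ^ 2 + b' ^ 2 → ν (W r s a b) = ν ⟨a', b', 0, 0⟩ := by
      intro a' b' h''
      have f' : F (W (-r) (-s) a' b') := third _ _ _ (pW r s p q hpq) (pW r s _ _ h')
        (pW _ _ _ _ h'') (oW' r s p q) (oW r s _ _ _ _ h) (oW r s _ _ _ _ h) n1 n2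
      exact (ff _ _ (pW r s a b hab) (pW _ _ _ _ h'') (oW r s _ _ _ _ h) f f').trans
        (lab _ _ _ _ h'' f')
    exact hne ((g 1 0 (by norm_num)).symm.trans (g x y hxy))
  have bad : ∀ r s, r ^ 2 + s ^ 2 = 1 → (∀ a b, 0 < a ^ 2 + b ^ 2 → ¬F (W r s a b)) ∨
      ∀ a b, 0 < a ^ 2 + b ^ 2 → ¬F (W (-r) (-s) a b) := by
    intro r s h
    have h' : 0 < (-y) ^ 2 + x ^ 2 := by linarith [neg_sq y]
    have k0 : ν ⟨-0, 1, 0, 0⟩ = ν ⟨1, 0, 0, 0⟩ := ff _ _ (pa _ _ _ _ (by norm_num)) p1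
      (by simp [V4.Ort]) (aF _ _ (by norm_num)) f1
    have k1 : ν ⟨-y, x, 0, 0⟩ = ν ⟨x, y, 0, 0⟩ := ff _ _ (pa _ _ _ _ h') p2
      (by simp only [V4.Ort]; ring) (aF _ _ h') f2
    have cross : ∀ a b a' b', 0 < a ^ 2 + b ^ 2 → 0 < a' ^ 2 + b' ^ 2 → F (W r s a b) →
        F (W (-r) (-s) a' b') → ν ⟨a, b, 0, 0⟩ = ν ⟨a', b', 0, 0⟩ := fun a b a' b' p q f g =>
      (lab _ _ _ _ p f).symm.trans ((ff _ _ (pW _ _ _ _ p) (pW _ _ _ _ q) (oW r s _ _ _ _ h) f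
        g).trans (lab _ _ _ _ q g))
    by_cases c1 : F (W r s 1 0) ∨ F (W r s (-0) 1)
    · refine Or.inr (half (-r) (-s) (by linarith [neg_sq r, neg_sq s]) x y hxy (fun g => ?_)
        (fun g => ?_))
      · rcases c1 with f | f
        · exact hne (cross _ _ _ _ (by norm_num) hxy f g)
        · exact hne (k0.symm.trans (cross _ _ _ _ (by norm_num) hxy f g))
      · rcases c1 with f | f
        · exact hne ((cross _ _ _ _ (by norm_num) h' f g).trans k1)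
        · exact hne ((k0.symm.trans (cross _ _ _ _ (by norm_num) h' f g)).trans k1)
    · rw [not_or] at c1
      exact Or.inl (half r s h 1 0 (by norm_num) c1.1 c1.2)
  have fin : ∀ ε δ : ℝ, ε ^ 2 = 1 → δ ^ 2 = 1 →
      (∀ a b, 0 < a ^ 2 + b ^ 2 → ¬F (W ε 0 a b)) →
      (∀ a b, 0 < a ^ 2 + b ^ 2 → ¬F (W 0 δ a b)) → False := by
    intro ε δ hε hδ b1 b2
    have q1 : (0 : ℝ) < 1 ^ 2 + 0 ^ 2 := by norm_num
    have q2 : (0 : ℝ) < 1 ^ 2 + (ε * δ) ^ 2 := by positivity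
    have q3 : (0 : ℝ) < (ε * δ) ^ 2 + 1 ^ 2 := by positivity
    have q4 : (0 : ℝ) < 0 ^ 2 + 1 ^ 2 := by norm_num
    have q5 : (0 : ℝ) < δ ^ 2 + ε ^ 2 := by linarith
    have q6 : (0 : ℝ) < (-ε) ^ 2 + δ ^ 2 := by linarith [neg_sq ε]
    have nA := b1 1 0 q1
    have nA' := b2 1 (ε * δ) q2
    have nB := b1 (ε * δ) 1 q3
    have nB' := b2 0 1 q4
    have e1 := opp _ _ (pW _ _ _ _ q1) (pW _ _ _ _ q2)
      (by simp only [V4.Ort, W]; linear_combination (-δ ^ 2) * hε - hδ) nA nA'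
    have e2 := opp _ _ (pW _ _ _ _ q2) (pc δ ε q5)
      (by simp only [V4.Ort, W]; linear_combination (-(ε * δ)) * hδ) nA' (nF _ _ q5)
    have e3 := opp _ _ (pc δ ε q5) (pc (-ε) δ q6) (by simp only [V4.Ort]; ring) (nF _ _ q5)
      (nF _ _ q6)
    have e4 := opp _ _ (pc (-ε) δ q6) (pW _ _ _ _ q3)
      (by simp only [V4.Ort, W]; linear_combination (-(ε * δ)) * hε) (nF _ _ q6) nB
    have e5 := opp _ _ (pW _ _ _ _ q3) (pW _ _ _ _ q4)
      (by simp only [V4.Ort, W]; linear_combination (-δ ^ 2) * hε - hδ) nB nB'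
    have e6 := opp _ _ (pW _ _ _ _ q4) (pc 0 1 q4) (by simp [V4.Ort, W]) nB' (nF _ _ q4)
    have e7 := opp _ _ (pc 0 1 q4) (pW _ _ _ _ q1) (by simp [V4.Ort, W]) (nF _ _ q4) nA
    tauto
  have b1 := bad 1 0 (by norm_num)
  have b2 := bad 0 1 (by norm_num)
  rw [neg_zero] at b1 b2
  rcases b1 with b1 | b1 <;> rcases b2 with b2 | b2 <;>
    exact fin _ _ (by norm_num) (by norm_num) b1 b2

variable {E : Type*} [NormedAddCommGroup E] [InnerProductSpace ℝ E] [FiniteDimensional ℝ E]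

theorem nu_eq {T : Type*} (h4 : 4 ≤ finrank ℝ E) (F C M : E → Prop) (ν : E → T)
    (tri : ∀ v, ‖v‖ = 1 → F v ∨ C v ∨ M v)
    (cc : ∀ v w, ‖v‖ = 1 → ‖w‖ = 1 → ⟪v, w⟫ = 0 → C v → C w → False)
    (mm : ∀ v w, ‖v‖ = 1 → ‖w‖ = 1 → ⟪v, w⟫ = 0 → M v → M w → False)
    (ff : ∀ v w, ‖v‖ = 1 → ‖w‖ = 1 → ⟪v, w⟫ = 0 → F v → F w → ν v = ν w)
    {u v : E} (hu : ‖u‖ = 1) (hv : ‖v‖ = 1) (fu : F u) (fv : F v) : ν u = ν v := by
  obtain ⟨e, x, y, he, h0, h1⟩ := exists_frame' h4 (v := v) hu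
  let φ : V4 → E := fun w => nrm (cmb e w.a w.b w.c w.d)
  have hn : ∀ w : V4, w.Pos → ‖φ w‖ = 1 := fun w h => norm_nrm (by rw [normsq_cmb he]; exact h)
  have ho : ∀ w z : V4, w.Ort z → ⟪φ w, φ z⟫ = 0 := fun w z h =>
    inner_nrm (by rw [inner_cmb he]; exact h)
  have e1 : φ ⟨1, 0, 0, 0⟩ = u := by simp only [φ, cmb_zero, h0, nrm_unit hu]
  have e2 : φ ⟨x, y, 0, 0⟩ = v := by simp only [φ, ← h1, nrm_unit hv]
  have hxy : 0 < x ^ 2 + y ^ 2 := by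
    have := normsq_cmb he x y 0 0
    rw [← h1, hv] at this
    linarith
  have := nu_core (fun w => F (φ w)) (fun w => C (φ w)) (fun w => M (φ w)) (fun w => ν (φ w))
    (fun w h => tri _ (hn w h)) (fun w z a b c => cc _ _ (hn w a) (hn z b) (ho w z c))
    (fun w z a b c => mm _ _ (hn w a) (hn z b) (ho w z c))
    (fun w z a b c => ff _ _ (hn w a) (hn z b) (ho w z c)) x y hxy (by rwa [e1]) (by rwa [e2])
  rwa [e1, e2] at this

end Pool.Agent.MP_66cee2_co.H35
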