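import Pool.Agent.MP_66cee2_co.H35.Kit
import Pool.Agent.MP_66cee2_co.H44.Center

/-!
The centre map keeps half of the kept distance, in dimension at least four, as soon as two
orthogonal lines are never both of intermediate type.
-/

namespace Pool.Agent.MP_66cee2_co.H35

open Module Pool.Agent.MP_66cee2_co.H44
open scoped RealInnerProductSpace

variable {E F : Type*} [NormedAddCommGroup E] [InnerProductSpace ℝ E]
  [NormedAddCommGroup F] [InnerProductSpace ℝ F] {g o : E → F}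

theorem step2_aux (hg : Pres g) (ho : IsCtr g o) (c s u u' : E) (hs : ‖s‖ ^ 2 = 1 / 2)
    (hu : ‖u‖ = 1) (hu' : ‖u'‖ = 1) (e : u = s + u')
    (h1 : ¬(half g c u ≠ 0 ∧ ‖half g c u‖ ^ 2 ≠ 1))
    (h2 : ¬(half g (c + s) u' ≠ 0 ∧ ‖half g (c + s) u'‖ ^ 2 ≠ 1)) :
    ‖o (c + s) - o c‖ ^ 2 = 1 / 2 := by
  have a1 := mid_add_half g c u
  have a2 := mid_sub_half g c u
  have b1 := mid_add_half g (c + s) u'
  have b2 := mid_sub_half g (c + s) u'
  have ex : c + s + u' = c + u := by rw [e]; abel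
  rw [ex, a1] at b1
  have key := hg (c + s - u') (c - u) (by
    have : c + s - u' - (c - u) = (2 : ℝ) • s := by rw [e]; module
    rw [this, norm_smul, mul_pow, hs]; norm_num)
  rw [a2, b2] at key
  have two : ∀ z : F, ‖(2 : ℝ) • z‖ ^ 2 = 4 * ‖z‖ ^ 2 := fun z => by
    rw [norm_smul, mul_pow]; norm_num
  have em : mid g (c + s) u' = mid g c u + half g c u - half g (c + s) u' := by rw [b1]; abel
  by_cases z1 : half g c u = 0
  · have : mid g (c + s) u' - half g (c + s) u' - (mid g c u - half g c u) =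
        -((2 : ℝ) • half g (c + s) u') := by rw [em, z1]; module
    rw [this, norm_neg, two] at key
    refine (h2 ⟨fun h => ?_, fun h => ?_⟩).elim
    · rw [h] at key; norm_num at key
    · rw [h] at key; norm_num at key
  by_cases z2 : half g (c + s) u' = 0
  · have : mid g (c + s) u' - half g (c + s) u' - (mid g c u - half g c u) =
        (2 : ℝ) • half g c u := by rw [em, z2]; module
    rw [this, two] at key
    refine (h1 ⟨z1, fun h => ?_⟩).elim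
    rw [h] at key; norm_num at key
  have f1 : ‖half g c u‖ ^ 2 = 1 := by by_contra h; exact h1 ⟨z1, h⟩
  have f2 : ‖half g (c + s) u'‖ ^ 2 = 1 := by by_contra h; exact h2 ⟨z2, h⟩
  have m1 := (ho c u hu).1
  have m2 := (ho (c + s) u' hu').1
  rw [f1, sub_self, sq_eq_zero_iff, norm_eq_zero, sub_eq_zero] at m1
  rw [f2, sub_self, sq_eq_zero_iff, norm_eq_zero, sub_eq_zero] at m2
  have eh : half g (c + s) u' = mid g c u + half g c u - mid g (c + s) u' := by rw [b1]; abel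
  have : mid g (c + s) u' - half g (c + s) u' - (mid g c u - half g c u) =
      (2 : ℝ) • (o (c + s) - o c) := by rw [eh, m1, m2]; module
  rw [this, two] at key
  linarith

variable [FiniteDimensional ℝ E]

theorem step2 (h4 : 4 ≤ finrank ℝ E) (hg : Pres g) (ho : IsCtr g o)
    (mm : ∀ c e e' : E, ‖e‖ = 1 → ‖e'‖ = 1 → ⟪e, e'⟫ = 0 →
      (half g c e ≠ 0 ∧ ‖half g c e‖ ^ 2 ≠ 1) → (half g c e' ≠ 0 ∧ ‖half g c e'‖ ^ 2 ≠ 1) → False)
    (c s : E) (hs : ‖s‖ ^ 2 = 1 / 2) : ‖o (c + s) - o c‖ ^ 2 = 1 / 2 := by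
  have hs0 : ‖s‖ ≠ 0 := fun h => by rw [h] at hs; norm_num at hs
  obtain ⟨e, -, -, he, h0, -⟩ := exists_frame' h4 (v := s) (norm_nrm (x := s) (by linarith))
  have es : s = cmb e ‖s‖ 0 0 0 := by
    simp only [cmb, h0, nrm, smul_smul, mul_inv_cancel₀ hs0, one_smul, zero_smul, add_zero]
  obtain ⟨a, ha⟩ : ∃ a : ℝ, 3 * a ^ 2 - 2 * a + 1 / 8 = 0 := by
    refine ⟨(2 - √(5 / 2)) / 6, ?_⟩
    have := Real.sq_sqrt (show (0 : ℝ) ≤ 5 / 2 by norm_num)
    linear_combination (1 / 12) * this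
  generalize ‖s‖ = t at hs es hs0
  have un : ∀ σ x y z : ℝ, σ ^ 2 = 1 / 8 → x ^ 2 + y ^ 2 + z ^ 2 = 7 / 8 →
      ‖cmb e σ x y z‖ = 1 := by
    intro σ x y z p q
    have := normsq_cmb he σ x y z
    have h : ‖cmb e σ x y z‖ ^ 2 = 1 ^ 2 := by linarith
    exact (sq_eq_sq₀ (norm_nonneg _) zero_le_one).1 h
  have n1 : (1 - a) ^ 2 + (-a) ^ 2 + (-a) ^ 2 = 7 / 8 := by linear_combination ha
  have n2 : (-a) ^ 2 + (1 - a) ^ 2 + (-a) ^ 2 = 7 / 8 := by linear_combination ha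
  have n3 : (-a) ^ 2 + (-a) ^ 2 + (1 - a) ^ 2 = 7 / 8 := by linear_combination ha
  have t1 : (t / 2) ^ 2 = 1 / 8 := by linear_combination (1 / 4) * hs
  have t2 : (-(t / 2)) ^ 2 = 1 / 8 := by linear_combination (1 / 4) * hs
  have hs' : ‖s‖ ^ 2 = 1 / 2 := by rw [es, normsq_cmb he]; linarith
  have use : ∀ x y z : ℝ, x ^ 2 + y ^ 2 + z ^ 2 = 7 / 8 →
      ¬(half g c (cmb e (t / 2) x y z) ≠ 0 ∧ ‖half g c (cmb e (t / 2) x y z)‖ ^ 2 ≠ 1) →
      ¬(half g (c + s) (cmb e (-(t / 2)) x y z) ≠ 0 ∧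
        ‖half g (c + s) (cmb e (-(t / 2)) x y z)‖ ^ 2 ≠ 1) → ‖o (c + s) - o c‖ ^ 2 = 1 / 2 :=
    fun x y z q => step2_aux hg ho c s _ _ hs' (un _ _ _ _ t1 q) (un _ _ _ _ t2 q) (by
      rw [es, cmb_add]; congr 1 <;> ring)
  have o12 : ∀ σ : ℝ, σ ^ 2 = 1 / 8 →
      ⟪cmb e σ (1 - a) (-a) (-a), cmb e σ (-a) (1 - a) (-a)⟫ = 0 := fun σ h => by
    rw [inner_cmb he]; linear_combination h + ha
  have o13 : ∀ σ : ℝ, σ ^ 2 = 1 / 8 →
      ⟪cmb e σ (1 - a) (-a) (-a), cmb e σ (-a) (-a) (1 - a)⟫ = 0 := fun σ h => by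
    rw [inner_cmb he]; linear_combination h + ha
  have o23 : ∀ σ : ℝ, σ ^ 2 = 1 / 8 →
      ⟪cmb e σ (-a) (1 - a) (-a), cmb e σ (-a) (-a) (1 - a)⟫ = 0 := fun σ h => by
    rw [inner_cmb he]; linear_combination h + ha
  have p12 := mm c _ _ (un _ _ _ _ t1 n1) (un _ _ _ _ t1 n2) (o12 _ t1)
  have p13 := mm c _ _ (un _ _ _ _ t1 n1) (un _ _ _ _ t1 n3) (o13 _ t1)
  have p23 := mm c _ _ (un _ _ _ _ t1 n2) (un _ _ _ _ t1 n3) (o23 _ t1)
  have q12 := mm (c + s) _ _ (un _ _ _ _ t2 n1) (un _ _ _ _ t2 n2) (o12 _ t2)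
  have q13 := mm (c + s) _ _ (un _ _ _ _ t2 n1) (un _ _ _ _ t2 n3) (o13 _ t2)
  have q23 := mm (c + s) _ _ (un _ _ _ _ t2 n2) (un _ _ _ _ t2 n3) (o23 _ t2)
  have u1 := use _ _ _ n1
  have u2 := use _ _ _ n2
  have u3 := use _ _ _ n3
  by_contra hne
  have v1 := fun p q => hne (u1 p q)
  have v2 := fun p q => hne (u2 p q)
  have v3 := fun p q => hne (u3 p q)
  exact v1 (fun p1 => v2 (p12 p1) fun q2 => v3 (p13 p1) (q23 q2))
    fun q1 => v2 (fun p2 => v3 (p23 p2) (q13 q1)) (q12 q1)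

end Pool.Agent.MP_66cee2_co.H35
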